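import Mathlib

/-!
# Erdős problem 1038 (MP_28e671_an): definitions

`PP a x = ∏ |x - a j|`; the sublevel set `EE a`; the explicit potential functions
`yy, LL, KK, Psi` attached to a wall of length `W` (coordinates `X = e - x`), the set `SS` of
single-gap lengths, and the combinatorial structure `IsConfig`.
-/

open scoped BigOperators
open Real

namespace E1038

/-- product of the distances of `x` to the points `a j` -/
noncomputable def PP {ι : Type*} [Fintype ι] (a : ι → ℝ) (x : ℝ) : ℝ := ∏ j, |x - a j|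

/-- the set where the monic polynomial with roots `a j` has modulus `< 1` -/
def EE {ι : Type*} [Fintype ι] (a : ι → ℝ) : Set ℝ := {x | PP a x < 1}

/-- Green function of the complement of a wall of length `W` at distance `X ≥ W` from the far end
of the wall. -/
noncomputable def yy (X W : ℝ) : ℝ := 2 * log (√X + √(X - W)) - log W

/-- Green function with pole at distance `D` from the far end of the wall. -/
noncomputable def LL (X D W : ℝ) : ℝ :=
  2 * log (√(X - W) * √D + √X * √(D - W)) - log W - log |X - D|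

/-- Poisson kernel with singularity at the near end of the wall. -/
noncomputable def KK (X W : ℝ) : ℝ := √X / √(X - W)

/-- the potential of the extremal problem -/
noncomputable def Psi (α X D W : ℝ) : ℝ :=
  yy X W - α * LL X D W - KK X W * (log (4 / W) - α * yy D W)

/-- lengths of the single gap configurations -/
def SS : Set ℝ :=
  {d | ∃ W α X₁ X₂ : ℝ, 0 < W ∧ W ≤ 1 / 2 ∧ W < X₂ ∧ X₂ < 2 ∧ 2 < X₁ ∧
    α * yy 2 W = log (4 / W) ∧ yy X₁ W = α * LL X₁ 2 W ∧ yy X₂ W = α * LL X₂ 2 W ∧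
    d = X₁ - X₂}

/-- Normal form: all points are `-1` or lie in `(s, 1]`, and `PP b s ≥ 1`. -/
structure IsNF {n : ℕ} (b : Fin n → ℝ) (s : ℝ) : Prop where
  hs : 0 ≤ s
  hb : ∀ j, b j = -1 ∨ (s < b j ∧ b j ≤ 1)
  hneg : ∃ j, b j = -1
  hpos : ∃ j, b j ≠ -1
  hPs : 1 ≤ PP b s
  hin : ∀ x, -1 < x → x < 0 → PP b x < 1

/-- Main gap `(p, q)` and holes `(m i - r i, m i + r i)` of a normal form. -/
structure IsConfig {n k : ℕ} (b : Fin n → ℝ) (p q : ℝ) (m r : Fin k → ℝ) : Prop where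
  hb : ∀ j, b j = -1 ∨ (q < b j ∧ b j ≤ 1)
  hneg : ∃ j, b j = -1
  hpos : ∃ j, b j ≠ -1
  hp : p < -1
  hq0 : 0 ≤ q
  hq1 : q < 1
  Pp : 1 ≤ PP b p
  Pq : 1 ≤ PP b q
  outer : ∀ x, x ≤ p → 1 ≤ PP b x
  r_pos : ∀ i, 0 < r i
  m_le : ∀ i, m i ≤ 1
  left : ∀ i, q ≤ m i - r i
  disj : ∀ i j, i ≠ j → m i + r i ≤ m j - r j ∨ m j + r j ≤ m i - r i
  endL : ∀ i, 1 ≤ PP b (m i - r i)
  endR : ∀ i, 1 ≤ PP b (m i + r i)
  cover : ∀ x, q ≤ x → (∀ i, r i ≤ |x - m i|) → 1 ≤ PP b x
  roots : ∀ j, b j = -1 ∨ ∃ i, |b j - m i| < r i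

/-- fraction of the roots at `-1` -/
noncomputable def frac {n : ℕ} (b : Fin n → ℝ) : ℝ :=
  ((Finset.univ.filter (fun j => b j = -1)).card : ℝ) / n

/-- the hull function -/
noncomputable def hh {ι : Type*} [Fintype ι] (m r : ι → ℝ) (z : ℂ) : ℝ :=
  ∑ i, (r i) ^ 2 / ‖z - (m i : ℂ)‖ ^ 2

/-- the hull-closing map on the real line -/
noncomputable def GG {ι : Type*} [Fintype ι] (m r : ι → ℝ) (x : ℝ) : ℝ :=
  x + ∑ i, (r i) ^ 2 / (x - m i)

end E1038
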